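import Pool.Agent.MP_77f003_co.H51.HBasic

/-!
A stable matching along contacts, rays leaving a finite set straight away, and positions between
cyclically ordered rays.
-/

namespace Pool.Agent.MP_77f003_co.H49

open SimpleGraph Filter Set

namespace Pym

variable {V : Type} {G : SimpleGraph V}

/-- Every touched lane has a winner. -/
theorem winner {ι κ : Type} [Finite ι] {c : ι → ℕ → κ → ℤ → Prop}
    (hb : ∀ i k l, BddAbove {j | c i k l j}) {n : ι → ℕ}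
    (h : ∀ i' k l j, k ≤ n i' → c i' k l j → ∃ i J, c i (n i) l J ∧ j ≤ J) {i' k l j}
    (hk : k ≤ n i') (hc : c i' k l j) :
    ∃ i J, c i (n i) l J ∧ ∀ i' k j, k ≤ n i' → c i' k l j → j ≤ J := by
  obtain ⟨b, hb'⟩ : BddAbove (⋃ i, {j | c i (n i) l j}) :=
    (finite_univ.bddAbove_biUnion.2 fun i _ => hb i (n i) l).mono fun j hj => by simpa using hj
  obtain ⟨J, ⟨i, hJ⟩, hm⟩ := Int.exists_greatest_of_bdd (P := fun J => ∃ i, c i (n i) l J)
    ⟨b, fun J hJ => hb' (mem_iUnion.2 hJ)⟩ (let ⟨i, J, e, _⟩ := h i' k l j hk hc; ⟨J, i, e⟩)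
  exact ⟨i, J, hJ, fun i' k j hk hc => let ⟨i, J', e, e'⟩ := h i' k l j hk hc
    e'.trans (hm J' ⟨i, e⟩)⟩

/-- One ray leaves the finite set straight away. -/
theorem foot [Fact G.Connected] (r : ℕ) {Y : Set V} (hY : Y.Finite) {w : ℕ → V} (h : LR G w)
    (h0 : w 0 ∈ Y) : ∃ w' : ℕ → V, (LR G w' ∧ TE w' w ∧ (∀ k ≤ r, dp G Y (w' k) = k) ∧
      ∀ k, r ≤ k → r ≤ dp G Y (w' k)) ∧ ∀ k, ∃ m, G.dist (w' k) (w m) ≤ r := by
  have hne : Y.Nonempty := ⟨_, h0⟩
  obtain ⟨b, hb⟩ := (h.tail hY (r + 1)).exists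
  obtain ⟨n, hn, hm⟩ := exists_max_image {n | dp G Y (w n) ≤ r} id
    ((finite_Iio b).subset fun n hn => by
      by_contra k
      obtain ⟨y, hy, e⟩ := dp_ex (G := G) hne (w n)
      have := hb y hy _ ⟨n, (not_lt.1 k : b ≤ n), rfl⟩
      have : dp G Y (w n) ≤ r := hn
      omega) ⟨0, (dp_le h0 _).trans (by simp)⟩
  have hm' : ∀ m, n < m → r < dp G Y (w m) := fun m k => not_le.1 fun e => k.not_ge (hm m e)
  have e : dp G Y (w n) = r := by
    have := dp_tri (G := G) hne (w n) (w (n + 1))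
    have := hm' (n + 1) (by omega)
    have := h.1 n
    have : dp G Y (w n) ≤ r := hn
    omega
  obtain ⟨y, hy, e'⟩ := dp_ex (G := G) hne (w n)
  obtain ⟨q, q0, q1, q2⟩ := exists_geo' (G := G) y (w n)
  rw [e'.trans e] at q1 q2
  obtain ⟨h1, h2, h3, -⟩ := cat_spec (G := G) (a := q) (n := r)
    (fun k hk => by rw [q2 k (k + 1) (by omega) hk]; omega) (h.shift n) (by simpa using q1.symm)
  refine ⟨_, ⟨h1, ⟨r, n, h3⟩, fun k hk => ?_, fun k hk => ?_⟩, fun k => ?_⟩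
  · have e1 := dp_le (G := G) hy (q k)
    have e2 := dp_tri (G := G) hne (q k) (q r)
    rw [← q0, q2 0 k (by omega) hk] at e1
    rw [q2 k r hk le_rfl, q1, e] at e2
    rw [h2 k hk]
    omega
  · obtain ⟨j, rfl⟩ := Nat.exists_eq_add_of_le hk
    rw [h3]
    rcases j with _ | j
    exacts [e.ge, (hm' _ (by omega)).le]
  · rcases le_total k r with hk | hk
    · exact ⟨n, by rw [h2 k hk, ← q1, q2 k r hk le_rfl]; omega⟩
    · obtain ⟨j, rfl⟩ := Nat.exists_eq_add_of_le hk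
      exact ⟨n + j, by rw [h3]; simp⟩

/-- The lower end of a set of at most two consecutive positions. -/
theorem low {N : ℕ} (hN : 4 ≤ N) (A : Set (ZMod N))
    (h : ∀ a ∈ A, ∀ b ∈ A, a ≠ b → b = a + 1 ∨ a = b + 1) : ∃ a, ∀ b ∈ A, b = a ∨ b = a + 1 := by
  by_cases c : ∃ a, a ∈ A ∧ a + 1 ∈ A
  · obtain ⟨a, h1, h2⟩ := c
    refine ⟨a, fun b hb => ?_⟩
    by_contra k
    push Not at k
    have e1 := (h a h1 b hb k.1.symm).resolve_left k.2
    have e2 := (h _ h2 b hb k.2.symm).resolve_right fun e => k.1 (add_right_cancel e).symm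
    have : ((3 : ℕ) : ZMod N) = 0 := by push_cast; linear_combination -e1 - e2
    have := Nat.le_of_dvd (by omega) ((ZMod.natCast_eq_zero_iff _ _).1 this)
    omega
  · rcases A.eq_empty_or_nonempty with rfl | ⟨a, ha⟩
    · exact ⟨0, by simp⟩
    refine ⟨a, fun b hb => ?_⟩
    by_contra k
    push Not at k
    exact c ⟨b, hb, (h a ha b hb k.1.symm).resolve_left k.2 ▸ ha⟩

variable [Fact G.Connected] {κ N : ℕ} {Y : Set V} {R : ZMod N → ℕ → V}

/-- Two rays joined far from `Y` and from the other rays are consecutive. -/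
theorem consec [NeZero N] (h : PB G κ Y R) (hN : 4 ≤ N) {a b : ZMod N} {m n : ℕ} (hab : a ≠ b)
    (l : Lk G {z | κ ≤ dp G Y z ∧ ∀ e, e ≠ a → e ≠ b → ∀ j, κ ≤ G.dist z (R e j)} (R a m) (R b n)) :
    b = a + 1 ∨ a = b + 1 := by
  by_contra k
  push Not at k
  have one : ∀ x : ZMod N, x + 1 ≠ x := fun x e => by
    have : ((1 : ℕ) : ZMod N) = 0 := by push_cast; linear_combination e
    have := Nat.le_of_dvd (by omega) ((ZMod.natCast_eq_zero_iff _ _).1 this)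
    omega
  have e0 : (((b - a).val : ℕ) : ZMod N) = b - a := ZMod.natCast_zmod_val _
  have e1 := ZMod.val_lt (b - a)
  generalize (b - a).val = t at e0 e1
  have e2 : t ≠ 0 := by rintro rfl; exact hab (by linear_combination e0)
  have e3 : t ≠ 1 := by rintro rfl; exact k.1 (by linear_combination -e0)
  have e4 : t + 1 ≠ N := fun e => k.2 (by
    have : ((t + 1 : ℕ) : ZMod N) = 0 := by rw [e, ZMod.natCast_self]
    push_cast at this
    linear_combination e0 - this)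
  have := h.nx a.val (a.val + 1) (a.val + t) (a.val + t + 1) (by omega) (by omega) (by omega)
    (by omega)
  push_cast at this
  rw [ZMod.natCast_zmod_val, e0, add_sub_cancel] at this
  have y0 : ∀ e, R e 0 ∈ Y := fun e => by
    obtain ⟨y, hy, k⟩ := dp_ex (G := G) h.ne (R e 0)
    rwa [← eq_of_dist (k.trans (h.low e 0 (Nat.zero_le _)))]
  obtain ⟨P, p1, p2, p3, p4⟩ := l.fin
  refine this ⟨P, Y, m, n, 0, 0, p1, h.fin, p4 _ p3, h.conn _ (y0 _) _ (y0 _), ?_⟩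
  refine Far.mono (S := {z | κ ≤ dp G Y z ∧ ∀ e, e ≠ a → e ≠ b → ∀ j, κ ≤ G.dist z (R e j)})
    ?_ ?_ le_rfl
  · rintro z hz _ ((hy | ⟨j, -, rfl⟩) | ⟨j, -, rfl⟩)
    exacts [dcomm (G := G) _ z ▸ hz.1.trans (dp_le hy z), hz.2 _ (one a) k.1.symm j,
      hz.2 _ k.2.symm (one b) j]
  · rintro z ((hz | ⟨j, hj, rfl⟩) | ⟨j, hj, rfl⟩)
    exacts [p2 hz, ⟨h.up (by omega) l.left.1 hj, fun e h1 _ i =>
      le_trans (by omega) (h.far a e h1.symm _ ⟨j, rfl⟩ _ ⟨i, rfl⟩)⟩,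
      ⟨h.up (by omega) l.right.1 hj, fun e _ h1 i =>
      le_trans (by omega) (h.far b e h1.symm _ ⟨j, rfl⟩ _ ⟨i, rfl⟩)⟩]

/-- Deep points that are not next to a ray. -/
def Fr (G : SimpleGraph V) (κ : ℕ) (Y : Set V) (R : ZMod N → ℕ → V) : Set V :=
  {z | 2 * κ + 1 < dp G Y z ∧ ∀ a j, κ < G.dist z (R a j)}

/-- The rays touched from a point. -/
def Tc (G : SimpleGraph V) (κ : ℕ) (Y : Set V) (R : ZMod N → ℕ → V) (x : V) : Set (ZMod N) :=
  {a | ∃ x' y j, Lk G (Fr G κ Y R) x x' ∧ G.Adj x' y ∧ 2 * κ + 1 < dp G Y y ∧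
    G.dist y (R a j) ≤ κ}

theorem touch [NeZero N] (h : PB G κ Y R) (hN : 4 ≤ N) (x : V) :
    ∀ a ∈ Tc G κ Y R x, ∀ b ∈ Tc G κ Y R x, a ≠ b → b = a + 1 ∨ a = b + 1 := by
  have key : ∀ a b c, (c = a ∨ c = b) → c ∈ Tc G κ Y R x → ∃ j, Lk G
      {z | κ ≤ dp G Y z ∧ ∀ e, e ≠ a → e ≠ b → ∀ j, κ ≤ G.dist z (R e j)} x (R c j) := by
    rintro a b c hc ⟨x', y, j, l, e, h1, h2⟩
    have g : Lk G {z | κ ≤ dp G Y z ∧ ∀ e, e ≠ a → e ≠ b → ∀ j, κ ≤ G.dist z (R e j)}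
        y (R c j) := Lk.geo fun z hz => ⟨by
          have := dp_tri (G := G) h.ne z y
          rw [dcomm z y] at this
          omega, fun e e1 e2 i => by
          have := h.far c e (by rintro rfl; tauto) _ ⟨j, rfl⟩ _ ⟨i, rfl⟩
          have := tri (G := G) (R c j) z (R e i)
          rw [dcomm _ z] at this
          omega⟩
    have l' := l.mono (T := {z | κ ≤ dp G Y z ∧ ∀ e, e ≠ a → e ≠ b → ∀ j, κ ≤ G.dist z (R e j)})
      fun z hz => ⟨by have := hz.1; omega, fun e _ _ j => (hz.2 e j).le⟩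
    exact ⟨j, (l'.trans (Lk.adj e l'.right g.left)).trans g⟩
  intro a ha b hb hab
  obtain ⟨i, l⟩ := key a b a (Or.inl rfl) ha
  obtain ⟨j, l'⟩ := key a b b (Or.inr rfl) hb
  exact consec h hN hab (l.symm.trans l')

end Pym

theorem pymSpec : PymSpec := by
  intro ι κ _ c B hb hu
  classical
  obtain ⟨n, ⟨h1, h2⟩, hm⟩ := Set.Finite.exists_maximal (s := {n : ι → ℕ | (∀ i, n i ≤ B) ∧
      ∀ i' k l j, k ≤ n i' → c i' k l j → ∃ i J, c i (n i) l J ∧ j ≤ J})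
    ((Finite.pi' fun _ => finite_Iic B).subset fun n hn => hn.1)
    ⟨0, fun _ => Nat.zero_le _, fun i k l j hk hc => ⟨i, j, by rwa [Nat.le_zero.1 hk] at hc, le_rfl⟩⟩
  have hμ : ∀ i, ∃ m : Option (κ × ℤ), (m = none → ∀ l J, c i (n i) l J →
      ¬ ∀ i' k j, k ≤ n i' → c i' k l j → j ≤ J) ∧ ∀ l J, m = some (l, J) →
      c i (n i) l J ∧ ∀ i' k j, k ≤ n i' → c i' k l j → j ≤ J := fun i => by
    by_cases e : ∃ l J, c i (n i) l J ∧ ∀ i' k j, k ≤ n i' → c i' k l j → j ≤ J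
    · obtain ⟨l, J, e⟩ := e
      exact ⟨some (l, J), by simp, by rintro _ _ ⟨⟩; exact e⟩
    · exact ⟨none, fun _ l J e1 e2 => e ⟨l, J, e1, e2⟩, by simp⟩
  choose μ m1 m2 using hμ
  refine ⟨n, μ, h1, fun i e => ?_, m2, fun i' k l j hk hc => ?_⟩
  · by_contra k0
    have k' := lt_of_le_of_ne (h1 i) k0
    have := hm (y := Function.update n i (n i + 1)) ⟨fun j => ?_, fun i' k l j hk hc => ?_⟩
      (fun j => ?_) i
    · simp at this
    · rcases eq_or_ne j i with rfl | e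
      exacts [by simpa using k', by simpa [e] using h1 j]
    · by_cases e' : k ≤ n i'
      · obtain ⟨i₀, J, e1, e2⟩ := Pym.winner hb h2 e' hc
        have : i₀ ≠ i := by rintro rfl; exact m1 _ e l J e1 e2
        exact ⟨i₀, J, by simpa [this] using e1, e2 _ _ _ e' hc⟩
      · rcases eq_or_ne i i' with rfl | e
        · obtain rfl : k = n i + 1 := by simp at hk; omega
          exact ⟨i, j, by simpa using hc, le_rfl⟩
        · simp [e.symm, e'] at hk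
    · rcases eq_or_ne j i with rfl | e
      exacts [by simp, by simp [e]]
  · obtain ⟨i, J, e1, e2⟩ := Pym.winner hb h2 hk hc
    rcases e : μ i with _ | ⟨l', J'⟩
    · exact absurd e2 (m1 i e l J e1)
    · exact ⟨i, J', by rw [e, hu _ _ _ _ _ _ e1 (m2 i l' J' e).1]⟩

theorem footSpec : FootSpec := by
  intro V ι G _ σ r Y M hY h1 h2
  choose M' k1 k2 using fun i => Pym.foot (G := G) r hY (h1 i).1 (h1 i).2
  refine ⟨M', k1, fun i j e => ?_⟩
  rintro _ ⟨a, rfl⟩ _ ⟨b, rfl⟩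
  obtain ⟨m, hm⟩ := k2 i a
  obtain ⟨n, hn⟩ := k2 j b
  have e1 := h2 i j e _ ⟨m, rfl⟩ _ ⟨n, rfl⟩
  have e2 := tri (G := G) (M i m) (M' i a) (M j n)
  have e3 := tri (G := G) (M' i a) (M' j b) (M j n)
  rw [dcomm (M i m) (M' i a)] at e2
  omega

theorem posSpec : PosSpec := by
  intro V G _ κ N _ Y R _ hN h
  classical
  have hf : ∀ A : Set (ZMod N), ∃ a, (∀ a ∈ A, ∀ b ∈ A, a ≠ b → b = a + 1 ∨ a = b + 1) →
      ∀ b ∈ A, b = a ∨ b = a + 1 := fun A => by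
    by_cases e : ∀ a ∈ A, ∀ b ∈ A, a ≠ b → b = a + 1 ∨ a = b + 1
    exacts [(Pym.low hN A e).imp fun _ k _ => k, ⟨0, fun k => absurd k e⟩]
  choose f hf using hf
  have uq : ∀ {x y a b i j}, G.dist x y ≤ 1 → G.dist x (R a i) ≤ κ → G.dist y (R b j) ≤ κ →
      a = b := fun {x y a b i j} e h1 h2 => by
    by_contra k
    have e1 := h.far a b k _ ⟨i, rfl⟩ _ ⟨j, rfl⟩
    have e2 := tri (G := G) (R a i) x (R b j)
    have e3 := tri (G := G) x y (R b j)
    rw [dcomm _ x] at e2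
    omega
  have hp : ∀ z, ∃ p, (∀ a j, G.dist z (R a j) ≤ κ → p = a) ∧
      ((∀ a j, κ < G.dist z (R a j)) → p = f (Pym.Tc G κ Y R z)) := fun z => by
    by_cases e : ∃ a j, G.dist z (R a j) ≤ κ
    · obtain ⟨a, j, e⟩ := e
      exact ⟨a, fun b i e' => uq (by simp) e e', fun k => absurd e (not_le.2 (k a j))⟩
    · exact ⟨_, fun a j k => absurd ⟨a, j, k⟩ e, fun _ => rfl⟩
  choose pos p1 p2 using hp
  have mix : ∀ x y, G.Adj x y → 2 * κ + 1 < dp G Y x → 2 * κ + 1 < dp G Y y →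
      (∀ a j, κ < G.dist x (R a j)) → ∀ b j, G.dist y (R b j) ≤ κ →
      pos y = pos x ∨ pos y = pos x + 1 ∧ ∃ k, G.dist y (R (pos y) k) ≤ κ :=
    fun x y e hx hy c b j c' => by
      rw [p1 y b j c', p2 x c]
      exact (hf _ (Pym.touch h hN x) b ⟨x, y, j, Lk.refl ⟨hx, c⟩, e, hy, c'⟩).imp_right
        fun k => ⟨k, j, c'⟩
  refine ⟨pos, h, fun a k z _ e => p1 z a k e, fun x y e hx hy => ?_⟩
  by_cases c : ∀ a j, κ < G.dist x (R a j) <;> by_cases c' : ∀ a j, κ < G.dist y (R a j)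
  · have l : Lk G (Pym.Fr G κ Y R) x y := Lk.adj e ⟨hx, c⟩ ⟨hy, c'⟩
    refine Or.inl ?_
    rw [p2 x c, p2 y c']
    exact congrArg f (Set.ext fun a => ⟨fun ⟨x', y', j, k, k'⟩ => ⟨x', y', j, l.trans k, k'⟩,
      fun ⟨x', y', j, k, k'⟩ => ⟨x', y', j, l.symm.trans k, k'⟩⟩)
  · push Not at c'
    obtain ⟨b, j, c'⟩ := c'
    exact (mix x y e hx hy c b j c').imp_right Or.inl
  · push Not at c
    obtain ⟨b, j, c⟩ := c
    exact (mix y x e.symm hy hx c' b j c).imp Eq.symm Or.inr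
  · push Not at c c'
    obtain ⟨a, i, c⟩ := c
    obtain ⟨b, j, c'⟩ := c'
    exact Or.inl (by rw [p1 x a i c, p1 y b j c', uq (dist_adj e).le c c'])

end Pool.Agent.MP_77f003_co.H49
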